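import Mathlib

open MeasureTheory
open scoped ENNReal NNReal

namespace Pool.Agent.Results.MP_efe325_an.HardyKernel

/-- The vertices of the infinite rooted dyadic tree `T`: finite words over a two letter alphabet.
The root `o` is the empty word and the two children of `x` are the words `x ++ [b]`. -/
abbrev Vert := List Bool

/-- All subsets of the vertex set are measurable. -/
instance instMeasurableSpaceVert : MeasurableSpace Vert := ⊤

instance : DiscreteMeasurableSpace Vert := ⟨fun _ => trivial⟩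

/-- The parent of a vertex. The root has the extra vertex `o*`, written `none`, as parent. -/
def parent (x : Vert) : Option Vert := if x = [] then none else some x.dropLast

/-- The gradient of a function on the vertices of `T` together with `o*`. An edge is named by its
lower end point (its child end point): the edge `α` joins the parent of `α` to `α`; in particular
`[]` names the edge from `o*` to `o`. -/
def grad (F : Option Vert → ℝ) (α : Vert) : ℝ := F (some α) - F (parent α)

/-- The last common vertex `x ∧ y` of the geodesics from `o*` to `x` and to `y`: the longest common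
prefix of the two words. -/
def meet : Vert → Vert → Vert
  | a :: x, b :: y => if a = b then a :: meet x y else []
  | _, _ => []

/-- `d(z)`: the number of edges of the geodesic from `o*` to `z`. -/
def depth (z : Vert) : ℕ := z.length + 1

/-- The kernel `k_{(a,b)}(x,y) = d(a∧x) + d(b∧y) - d(a∧y) - d(b∧x)`. -/
def kern (p q : Vert × Vert) : ℝ :=
  (depth (meet p.1 q.1) : ℝ) + depth (meet p.2 q.2) - depth (meet p.1 q.2) - depth (meet p.2 q.1)

/-- Condition (a') with the constant `C`. -/
def HoldsA (μ : Measure Vert) (C : ℝ≥0) : Prop :=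
  ∀ F : Option Vert → ℝ,
    ∫⁻ p : Vert × Vert, ENNReal.ofReal ((F (some p.1) - F (some p.2)) ^ 2) ∂(μ.prod μ)
      ≤ C * ∑' α : Vert, ENNReal.ofReal (grad F α ^ 2)

/-- Condition (b) with the constant `C`: in every (equivalently, in the) reproducing kernel Hilbert
space of functions on `T × T` with kernel `|k|`, one has `‖G‖²_{L²(μ⊗μ)} ≤ C ‖G‖²`. -/
def HoldsB (μ : Measure Vert) (C : ℝ≥0) : Prop :=
  ∀ (H : Type) [NormedAddCommGroup H] [InnerProductSpace ℝ H] [CompleteSpace H]
    [RKHS ℝ H (Vert × Vert) ℝ],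
    (∀ p q : Vert × Vert, RKHS.kernel H p q 1 = |kern p q|) →
    ∀ G : H, ∫⁻ p : Vert × Vert, ENNReal.ofReal (G p ^ 2) ∂(μ.prod μ)
      ≤ C * ENNReal.ofReal (‖G‖ ^ 2)

/-! ### Geodesics -/

/-- edges from `o*` to `x`. -/
def rp (x : Vert) : Finset Vert := x.inits.toFinset

/-- edges of the geodesic from `x` to `y`. -/
def geo (x y : Vert) : Finset Vert := symmDiff (rp x) (rp y)

lemma mem_rp {x α : Vert} : α ∈ rp x ↔ α <+: x := by
  simp [rp, List.mem_inits]

lemma mem_geo {x y α : Vert} : α ∈ geo x y ↔ (α <+: x ∧ ¬ α <+: y) ∨ (α <+: y ∧ ¬ α <+: x) := by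
  simp [geo, Finset.mem_symmDiff, mem_rp]

lemma meet_prefix (x y α : Vert) : α <+: meet x y ↔ α <+: x ∧ α <+: y := by
  induction x generalizing y α with
  | nil => 
    simp [meet]
    intro h
    subst h
    exact List.nil_prefix
  | cons a x ih =>
    cases y with
    | nil =>
      simp [meet]
      intro h
      subst h
      exact List.nil_prefix
    | cons b y =>
      cases α with
      | nil => simp
      | cons c α =>
        by_cases hab : a = b
        · subst hab
          simp [meet, List.cons_prefix_cons, ih]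
          tauto
        · simp [meet, hab, List.cons_prefix_cons]
          intro h1 _ h2
          exact absurd (h1.symm.trans h2) hab

lemma card_rp (x : Vert) : (rp x).card = x.length + 1 := by
  have h : rp x = (Finset.range (x.length + 1)).image (fun n => x.take n) := by
    ext α
    rw [mem_rp, Finset.mem_image]
    constructor
    · intro h
      exact ⟨α.length, Finset.mem_range.2 (Nat.lt_succ_of_le h.length_le),
        (List.prefix_iff_eq_take.1 h).symm⟩
    · rintro ⟨n, _, rfl⟩
      exact List.take_prefix n x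
  rw [h, Finset.card_image_of_injOn, Finset.card_range]
  intro m hm n hn hmn
  have hm' : m ≤ x.length := Nat.lt_succ_iff.1 (Finset.mem_range.1 hm)
  have hn' : n ≤ x.length := Nat.lt_succ_iff.1 (Finset.mem_range.1 hn)
  have := congrArg List.length hmn
  simpa [List.length_take, hm', hn'] using this

lemma rp_inter (x y : Vert) : rp x ∩ rp y = rp (meet x y) := by
  ext α
  simp [mem_rp, meet_prefix]

lemma depth_meet (x y : Vert) : depth (meet x y) = (rp x ∩ rp y).card := by
  rw [rp_inter, card_rp, depth]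

/-! ### The kernel -/

/-- indicator of membership. -/
def ind (s : Finset Vert) (α : Vert) : ℝ := if α ∈ s then 1 else 0

lemma card_inter_eq (s t u : Finset Vert) (h : s ∩ t ⊆ u) :
    ((s ∩ t).card : ℝ) = ∑ α ∈ u, ind s α * ind t α := by
  rw [Finset.card_eq_sum_ones, Nat.cast_sum]
  have : ∑ α ∈ u, ind s α * ind t α = ∑ α ∈ u, if α ∈ s ∩ t then (1:ℝ) else 0 := by
    apply Finset.sum_congr rfl
    intro α _
    by_cases h1 : α ∈ s <;> by_cases h2 : α ∈ t <;> simp [ind, h1, h2]
  rw [this, ← Finset.sum_filter]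
  rw [Finset.filter_mem_eq_inter]
  rw [Finset.inter_eq_right.2 h]
  simp

lemma kern_eq_sum (a b x y : Vert) :
    kern (a, b) (x, y) = ∑ α ∈ rp a ∪ rp b, (ind (rp a) α - ind (rp b) α) *
      (ind (rp x) α - ind (rp y) α) := by
  simp only [kern, depth_meet]
  rw [card_inter_eq (rp a) (rp x) (rp a ∪ rp b) (fun z hz => by simp at hz ⊢; tauto),
    card_inter_eq (rp b) (rp y) (rp a ∪ rp b) (fun z hz => by simp at hz ⊢; tauto),
    card_inter_eq (rp a) (rp y) (rp a ∪ rp b) (fun z hz => by simp at hz ⊢; tauto),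
    card_inter_eq (rp b) (rp x) (rp a ∪ rp b) (fun z hz => by simp at hz ⊢; tauto),
    ← Finset.sum_add_distrib, ← Finset.sum_sub_distrib, ← Finset.sum_sub_distrib]
  apply Finset.sum_congr rfl
  intro α _
  ring

lemma prefix_total {α β z : Vert} (h1 : α <+: z) (h2 : β <+: z) : α <+: β ∨ β <+: α := by
  rcases le_total α.length β.length with h | h
  · left; exact List.prefix_of_prefix_length_le h1 h2 h
  · right; exact List.prefix_of_prefix_length_le h2 h1 h

lemma abs_kern (p q : Vert × Vert) :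
    |kern p q| = ((geo p.1 p.2 ∩ geo q.1 q.2).card : ℝ) := by
  obtain ⟨a, b⟩ := p
  obtain ⟨x, y⟩ := q
  rw [kern_eq_sum]
  simp only
  -- the sign
  have key : ∃ s : ℝ, |s| = 1 ∧ ∀ α ∈ rp a ∪ rp b, (ind (rp a) α - ind (rp b) α) *
      (ind (rp x) α - ind (rp y) α) = s * (if α ∈ geo a b ∩ geo x y then 1 else 0) := by
    have gen : ∀ (a b x y : Vert), (∃ α, (α <+: a ∧ ¬ α <+: b) ∧ (α <+: x ∧ ¬ α <+: y)) →
        ∀ α, (ind (rp a) α - ind (rp b) α) *
      (ind (rp x) α - ind (rp y) α) = (if α ∈ geo a b ∩ geo x y then 1 else 0) := by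
      rintro a b x y ⟨β, ⟨h1, h2⟩, h3, h4⟩ α
      simp only [ind, Finset.mem_inter, mem_geo, mem_rp]
      by_cases ha : α <+: a <;> by_cases hb : α <+: b <;> by_cases hx : α <+: x <;>
        by_cases hy : α <+: y <;> simp [ha, hb, hx, hy]
      · -- α prefix of a and y, not b nor x
        exfalso
        rcases prefix_total h1 ha with h | h
        · exact h4 (h.trans hy)
        · exact hx (h.trans h3)
      · exfalso
        rcases prefix_total h3 hx with h | h
        · exact h2 (h.trans hb)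
        · exact ha (h.trans h1)
    by_cases h1 : ∃ α, (α <+: a ∧ ¬ α <+: b) ∧ (α <+: x ∧ ¬ α <+: y)
    · exact ⟨1, by simp, fun α _ => by rw [gen a b x y h1 α, one_mul]⟩
    by_cases h2 : ∃ α, (α <+: a ∧ ¬ α <+: b) ∧ (α <+: y ∧ ¬ α <+: x)
    · refine ⟨-1, by simp, fun α _ => ?_⟩
      have := gen a b y x h2 α
      have h' : geo y x = geo x y := symmDiff_comm _ _
      rw [h'] at this
      linarith
    by_cases h3 : ∃ α, (α <+: b ∧ ¬ α <+: a) ∧ (α <+: x ∧ ¬ α <+: y)
    · refine ⟨-1, by simp, fun α _ => ?_⟩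
      have := gen b a x y h3 α
      have h' : geo b a = geo a b := symmDiff_comm _ _
      rw [h'] at this
      linarith
    by_cases h4 : ∃ α, (α <+: b ∧ ¬ α <+: a) ∧ (α <+: y ∧ ¬ α <+: x)
    · refine ⟨1, by simp, fun α _ => ?_⟩
      have := gen b a y x h4 α
      have h' : geo b a = geo a b := symmDiff_comm _ _
      have h'' : geo y x = geo x y := symmDiff_comm _ _
      rw [h', h''] at this
      linarith
    · push Not at h1 h2 h3 h4
      refine ⟨1, by simp, fun α _ => ?_⟩
      have e1 := h1 α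
      have e2 := h2 α
      have e3 := h3 α
      have e4 := h4 α
      simp only [ind, Finset.mem_inter, mem_geo, mem_rp]
      by_cases ha : α <+: a <;> by_cases hb : α <+: b <;> by_cases hx : α <+: x <;>
        by_cases hy : α <+: y <;> simp_all
  obtain ⟨s, hs, key⟩ := key
  rw [Finset.sum_congr rfl key, ← Finset.mul_sum, abs_mul, hs, one_mul]
  rw [← Finset.sum_filter, Finset.filter_mem_eq_inter, Finset.inter_eq_right.2, abs_of_nonneg]
  · simp
  · exact Finset.sum_nonneg fun _ _ => zero_le_one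
  · intro z hz
    simp only [Finset.mem_inter, mem_geo, Finset.mem_union, mem_rp] at hz ⊢
    tauto

/-! ### Potentials -/

lemma rp_append (x : Vert) (b : Bool) : rp (x ++ [b]) = insert (x ++ [b]) (rp x) := by
  ext α
  rw [Finset.mem_insert, mem_rp, mem_rp, List.prefix_concat_iff]

lemma not_mem_rp (x : Vert) (b : Bool) : x ++ [b] ∉ rp x := by
  rw [mem_rp]
  intro h
  have := h.length_le
  simp at this

/-- the potential with pole `c` -/
noncomputable def I (g : Vert → ℝ) (c x : Vert) : ℝ := ∑ α ∈ geo c x, g α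

lemma I_self (g : Vert → ℝ) (c : Vert) : I g c c = 0 := by
  simp [I, geo]

lemma I_step (g : Vert → ℝ) (c x : Vert) (b : Bool) :
    (I g c (x ++ [b]) - I g c x) ^ 2 = g (x ++ [b]) ^ 2 := by
  have hx := not_mem_rp x b
  by_cases h : x ++ [b] ∈ rp c
  · have e : insert (x ++ [b]) (geo c (x ++ [b])) = geo c x := by
      ext α
      simp only [geo, rp_append, Finset.mem_insert, Finset.mem_symmDiff]
      by_cases hα : α = x ++ [b]
      · subst hα; simp [h, hx]
      · simp [hα]
    have e2 : x ++ [b] ∉ geo c (x ++ [b]) := by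
      simp [geo, rp_append, Finset.mem_symmDiff, h]
    rw [I, I, ← e, Finset.sum_insert e2]
    ring
  · have e : geo c (x ++ [b]) = insert (x ++ [b]) (geo c x) := by
      ext α
      simp only [geo, rp_append, Finset.mem_insert, Finset.mem_symmDiff]
      by_cases hα : α = x ++ [b]
      · subst hα; simp [h, hx]
      · simp [hα]
    have e2 : x ++ [b] ∉ geo c x := by
      simp [geo, Finset.mem_symmDiff, h, hx]
    rw [I, I, e, Finset.sum_insert e2]
    ring

/-- the truncated potential -/
noncomputable def FA (g : Vert → ℝ) (c : Vert) (A : Set Vert) : Option Vert → ℝ := by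
  classical
  exact fun o => match o with
  | none => if [] ∈ A then I g c [] else 0
  | some x => if x ∈ A then I g c x else 0

lemma parent_append (x : Vert) (b : Bool) : parent (x ++ [b]) = some x := by
  simp [parent]

lemma grad_FA (g : Vert → ℝ) (c : Vert) (A : Set Vert)
    (h1 : ∀ x b, x ∈ A → x ++ [b] ∉ A → x ++ [b] = c)
    (h2 : ∀ x b, x ∉ A → x ++ [b] ∈ A → x = c) (α : Vert) :
    grad (FA g c A) α ^ 2 ≤ g α ^ 2 := by
  rcases List.eq_nil_or_concat α with rfl | ⟨x, b, rfl⟩
  · simp [grad, parent, FA]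
    positivity
  · rw [grad, List.concat_eq_append, parent_append, ← I_step g c x b]
    by_cases hx : x ∈ A <;> by_cases hxb : x ++ [b] ∈ A
    · simp [FA, hx, hxb]
    · have := h1 x b hx hxb
      simp only [FA, hx, hxb, if_true, if_false]
      rw [this, I_self]
    · have := h2 x b hx hxb
      simp only [FA, hx, hxb, if_true, if_false]
      rw [← this, I_self]
    · simp [FA, hx, hxb]
      positivity

/-! ### Measures -/

lemma sfin (μ : Measure Vert) : SFinite μ := by
  rw [← Measure.sum_smul_dirac μ]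
  infer_instance

/-- the subtree below `v` -/
def S (v : Vert) : Set Vert := {x | v <+: x}

lemma S_step (c : Vert) (A : Set Vert) (hA : A = (S c)ᶜ ∨ ∃ b, A = S (c ++ [b])) :
    (∀ x b, x ∈ A → x ++ [b] ∉ A → x ++ [b] = c) ∧
    (∀ x b, x ∉ A → x ++ [b] ∈ A → x = c) := by
  rcases hA with rfl | ⟨b', rfl⟩
  · constructor
    · intro x b h1 h2
      simp only [S, Set.mem_compl_iff, Set.mem_ofPred_eq, not_not] at h1 h2
      rw [List.prefix_concat_iff] at h2
      rcases h2 with h2 | h2
      · exact h2.symm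
      · exact absurd h2 h1
    · intro x b h1 h2
      simp only [S, Set.mem_compl_iff, Set.mem_ofPred_eq, not_not] at h1 h2
      exact absurd (h1.trans (List.prefix_append _ _)) h2
  · constructor
    · intro x b h1 h2
      simp only [S, Set.mem_ofPred_eq] at h1 h2
      exact absurd (h1.trans (List.prefix_append _ _)) h2
    · intro x b h1 h2
      simp only [S, Set.mem_ofPred_eq] at h1 h2
      rw [List.prefix_concat_iff] at h2
      rcases h2 with h2 | h2
      · exact (List.append_inj' h2 rfl).1.symm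
      · exact absurd h2 h1

lemma lower (μ : Measure Vert) (F : Option Vert → ℝ) (A : Set Vert)
    (hF : ∀ x, x ∉ A → F (some x) = 0) :
    (∫⁻ x, ENNReal.ofReal (F (some x) ^ 2) ∂μ) * μ Aᶜ ≤
      ∫⁻ p : Vert × Vert, ENNReal.ofReal ((F (some p.1) - F (some p.2)) ^ 2) ∂(μ.prod μ) := by
  have := sfin μ
  have h1 : μ Aᶜ = ∫⁻ y, (Aᶜ : Set Vert).indicator 1 y ∂μ := by
    rw [lintegral_indicator_one (MeasurableSet.of_discrete)]
  rw [h1, ← lintegral_prod_mul (Measurable.of_discrete).aemeasurable
    (Measurable.of_discrete).aemeasurable]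
  apply lintegral_mono
  intro p
  by_cases hp : p.2 ∈ Aᶜ
  · simp only [Set.indicator_of_mem hp, Pi.one_apply, mul_one]
    rw [hF p.2 hp, sub_zero]
  · simp [Set.indicator_of_notMem hp]

lemma prodbound {μ : Measure Vert} {C : ℝ≥0} (h : HoldsA μ C) (v : Vert) :
    μ (S v) * μ (S v)ᶜ ≤ C := by
  classical
  let F : Option Vert → ℝ := fun o => match o with
    | none => 0
    | some x => if x ∈ S v then 1 else 0
  have h1 := h F
  have h2 := lower μ F (S v) (fun x hx => by simp [F, hx])
  have h3 : ∫⁻ x, ENNReal.ofReal (F (some x) ^ 2) ∂μ = μ (S v) := by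
    rw [← lintegral_indicator_one (MeasurableSet.of_discrete)]
    apply lintegral_congr
    intro x
    by_cases hx : x ∈ S v <;> simp [F, hx]
  have h4 : ∑' α : Vert, ENNReal.ofReal (grad F α ^ 2) ≤ 1 := by
    rw [tsum_eq_single v]
    · rw [ENNReal.ofReal_le_one]
      have ha : ∀ o, F o = 0 ∨ F o = 1 := by
        intro o
        cases o with
        | none => left; rfl
        | some x => by_cases hx : x ∈ S v <;> simp [F, hx]
      rw [grad]
      rcases ha (some v) with h | h <;> rcases ha (parent v) with h' | h' <;> rw [h, h'] <;>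
        norm_num
    · intro α hα
      rcases List.eq_nil_or_concat α with rfl | ⟨x, b, rfl⟩
      · have : ¬ v <+: [] := by
          intro hv
          exact hα (List.prefix_nil.1 hv).symm
        simp [grad, parent, F, S, this]
      · rw [List.concat_eq_append] at hα ⊢
        rw [grad, parent_append]
        have : (x ++ [b] ∈ S v) ↔ (x ∈ S v) := by
          simp only [S, Set.mem_ofPred_eq, List.prefix_concat_iff]
          constructor
          · rintro (h | h)
            · exact absurd h.symm hα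
            · exact h
          · exact Or.inr
        simp [F, this]
  calc μ (S v) * μ (S v)ᶜ ≤ _ := by rw [← h3]; exact h2
    _ ≤ _ := h1
    _ ≤ C * 1 := by gcongr
    _ = C := mul_one _

lemma exists_centroid {μ : Measure Vert} {C : ℝ≥0} (h : HoldsA μ C) :
    ∃ c, ∀ A : Set Vert, (A = (S c)ᶜ ∨ ∃ b, A = S (c ++ [b])) → μ Set.univ ≤ 2 * μ Aᶜ := by
  by_cases h0 : μ Set.univ = 0
  · exact ⟨[], fun A _ => by rw [h0]; exact bot_le⟩
  have hex : ∃ c, 2 * μ (S c)ᶜ < μ Set.univ ∧ ∀ b, ¬ (2 * μ (S (c ++ [b]))ᶜ < μ Set.univ) := by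
    by_contra hcon
    push Not at hcon
    choose! f hf using hcon
    let s : ℕ → Vert := fun n => Nat.rec [] (fun _ v => v ++ [f v]) n
    have s0 : s 0 = [] := rfl
    have ss : ∀ n, s (n+1) = s n ++ [f (s n)] := fun n => rfl
    have hs : ∀ n, 2 * μ (S (s n))ᶜ < μ Set.univ := by
      intro n
      induction n with
      | zero =>
        have : S (s 0) = Set.univ := by
          ext x; simp [S, s0]
        rw [this]
        simp [pos_iff_ne_zero, h0]
      | succ n ih => rw [ss]; exact hf _ ih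
    have hlen : ∀ n, (s n).length = n := by
      intro n
      induction n with
      | zero => rfl
      | succ n ih => rw [ss]; simp [ih]
    have hmono : Monotone (fun n => (S (s n))ᶜ) := by
      apply monotone_nat_of_le_succ
      intro n x hx hx'
      apply hx
      simp only [S, Set.mem_ofPred_eq, ss] at hx' ⊢
      exact (List.prefix_append _ _).trans hx'
    have hun : (⋃ n, (S (s n))ᶜ) = Set.univ := by
      ext x
      simp only [Set.mem_iUnion, Set.mem_univ, iff_true]
      refine ⟨x.length + 1, ?_⟩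
      intro hx
      have := (show s (x.length+1) <+: x from hx).length_le
      have h2 := hlen (x.length + 1)
      exact absurd (h2.symm.le.trans this) (by omega)
    have hlim := hmono.measure_iUnion (μ := μ)
    rw [hun] at hlim
    by_cases hfin : μ Set.univ = ⊤
    · have hz : ∀ n, μ (S (s n))ᶜ = 0 := by
        intro n
        have h1 := hs n
        rw [hfin] at h1
        have h2 : μ (S (s n))ᶜ ≠ ⊤ := by
          intro h3
          rw [h3] at h1
          simp at h1
        have h3 : μ (S (s n)) = ⊤ := by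
          by_contra h4
          have : μ Set.univ = μ (S (s n)) + μ (S (s n))ᶜ := by
            rw [measure_add_measure_compl (MeasurableSet.of_discrete)]
          rw [hfin] at this
          exact ENNReal.add_ne_top.2 ⟨h4, h2⟩ this.symm
        have h4 := prodbound h (s n)
        rw [h3] at h4
        by_contra h5
        rw [ENNReal.top_mul h5] at h4
        exact absurd h4 (by simp)
      apply h0
      rw [hlim]
      simp [hz]
    · have h1 : 2 * μ Set.univ ≤ μ Set.univ := by
        conv_lhs => rw [hlim]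
        rw [ENNReal.mul_iSup]
        exact iSup_le fun n => (hs n).le
      have h2 : μ Set.univ + μ Set.univ ≤ μ Set.univ + 0 := by
        rw [← two_mul, add_zero]; exact h1
      rw [ENNReal.add_le_add_iff_left hfin] at h2
      exact h0 (le_antisymm h2 bot_le)
  obtain ⟨c, hc1, hc2⟩ := hex
  refine ⟨c, fun A hA => ?_⟩
  rcases hA with rfl | ⟨b, rfl⟩
  · rw [compl_compl]
    have hsum : μ Set.univ = μ (S c) + μ (S c)ᶜ := by
      rw [measure_add_measure_compl (MeasurableSet.of_discrete)]
    rcases le_total (μ (S c)) (μ (S c)ᶜ) with h1 | h1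
    · exfalso
      have : μ Set.univ ≤ 2 * μ (S c)ᶜ := by
        rw [hsum, two_mul]; gcongr
      exact absurd hc1 (not_lt.2 this)
    · rw [hsum, two_mul]; gcongr
  · exact not_lt.1 (hc2 b)

/-! ### From (a') to an inequality for potentials -/

lemma I_nonneg {g : Vert → ℝ} (hg : ∀ α, 0 ≤ g α) (c x : Vert) : 0 ≤ I g c x :=
  Finset.sum_nonneg fun _ _ => hg _

lemma one_piece {μ : Measure Vert} {C : ℝ≥0} (h : HoldsA μ C) {c : Vert} {A : Set Vert}
    (hA : A = (S c)ᶜ ∨ ∃ b, A = S (c ++ [b])) (hM : μ Set.univ ≤ 2 * μ Aᶜ) (g : Vert → ℝ) :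
    (∫⁻ x, ENNReal.ofReal (FA g c A (some x) ^ 2) ∂μ) * μ Set.univ ≤
      2 * (C * ∑' α, ENNReal.ofReal (g α ^ 2)) := by
  have h1 := h (FA g c A)
  have h2 := lower μ (FA g c A) A (fun x hx => by simp [FA, hx])
  have h3 : ∑' α : Vert, ENNReal.ofReal (grad (FA g c A) α ^ 2) ≤
      ∑' α, ENNReal.ofReal (g α ^ 2) := by
    apply ENNReal.tsum_le_tsum
    intro α
    apply ENNReal.ofReal_le_ofReal
    exact grad_FA g c A (S_step c A hA).1 (S_step c A hA).2 α
  calc (∫⁻ x, ENNReal.ofReal (FA g c A (some x) ^ 2) ∂μ) * μ Set.univ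
      ≤ (∫⁻ x, ENNReal.ofReal (FA g c A (some x) ^ 2) ∂μ) * (2 * μ Aᶜ) := by gcongr
    _ = 2 * ((∫⁻ x, ENNReal.ofReal (FA g c A (some x) ^ 2) ∂μ) * μ Aᶜ) := by ring
    _ ≤ 2 * (C * ∑' α, ENNReal.ofReal (grad (FA g c A) α ^ 2)) := by
        exact mul_le_mul' le_rfl (h2.trans h1)
    _ ≤ _ := by gcongr

lemma cases_vertex (c x : Vert) :
    x = c ∨ x ∈ (S c)ᶜ ∨ x ∈ S (c ++ [true]) ∨ x ∈ S (c ++ [false]) := by
  by_cases h : c <+: x
  · obtain ⟨t, rfl⟩ := h
    cases t with
    | nil => left; simp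
    | cons b t =>
      right; right
      cases b
      · right; exact ⟨t, by simp⟩
      · left; exact ⟨t, by simp⟩
  · right; left; exact h

lemma hardy {μ : Measure Vert} {C : ℝ≥0} (h : HoldsA μ C) {c : Vert}
    (hc : ∀ A : Set Vert, (A = (S c)ᶜ ∨ ∃ b, A = S (c ++ [b])) → μ Set.univ ≤ 2 * μ Aᶜ)
    (g : Vert → ℝ) :
    (∫⁻ x, ENNReal.ofReal (I g c x ^ 2) ∂μ) * μ Set.univ ≤
      6 * (C * ∑' α, ENNReal.ofReal (g α ^ 2)) := by
  have a1 := one_piece h (c := c) (A := (S c)ᶜ) (Or.inl rfl) (hc _ (Or.inl rfl)) g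
  have a2 := one_piece h (c := c) (A := S (c ++ [true])) (Or.inr ⟨_, rfl⟩)
    (hc _ (Or.inr ⟨_, rfl⟩)) g
  have a3 := one_piece h (c := c) (A := S (c ++ [false])) (Or.inr ⟨_, rfl⟩)
    (hc _ (Or.inr ⟨_, rfl⟩)) g
  have hle : ∫⁻ x, ENNReal.ofReal (I g c x ^ 2) ∂μ ≤
      (∫⁻ x, ENNReal.ofReal (FA g c (S c)ᶜ (some x) ^ 2) ∂μ) +
      (∫⁻ x, ENNReal.ofReal (FA g c (S (c ++ [true])) (some x) ^ 2) ∂μ) +
      (∫⁻ x, ENNReal.ofReal (FA g c (S (c ++ [false])) (some x) ^ 2) ∂μ) := by
    rw [← lintegral_add_left (Measurable.of_discrete), ← lintegral_add_left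
      (Measurable.of_discrete)]
    apply lintegral_mono
    intro x
    rcases cases_vertex c x with hx | hx | hx | hx
    · subst hx
      simp [I_self]
    · simp only [FA, hx, if_true]
      rw [add_assoc]
      exact le_self_add
    · simp only [FA, hx, if_true]
      rw [add_right_comm]
      exact le_add_self
    · simp only [FA, hx, if_true]
      exact le_add_self
  refine (mul_le_mul' hle le_rfl).trans ?_
  rw [add_mul, add_mul]
  calc _ ≤ 2 * (C * ∑' α, ENNReal.ofReal (g α ^ 2)) + 2 * (C * ∑' α, ENNReal.ofReal (g α ^ 2)) +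
        2 * (C * ∑' α, ENNReal.ofReal (g α ^ 2)) := by gcongr
    _ = _ := by ring

lemma geo_bound {g : Vert → ℝ} (hg : ∀ α, 0 ≤ g α) (c x y : Vert) :
    ∑ α ∈ geo x y, g α ≤ I g c x + I g c y := by
  classical
  have h1 : geo x y ⊆ geo c x ∪ geo c y := by
    intro α hα
    simp only [geo, Finset.mem_union, Finset.mem_symmDiff] at hα ⊢
    tauto
  calc ∑ α ∈ geo x y, g α ≤ ∑ α ∈ geo c x ∪ geo c y, g α :=
        Finset.sum_le_sum_of_subset_of_nonneg h1 fun _ _ _ => hg _
    _ ≤ _ := by
        rw [I, I, ← Finset.sum_union_inter]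
        have : 0 ≤ ∑ α ∈ geo c x ∩ geo c y, g α := Finset.sum_nonneg fun _ _ => hg _
        linarith

lemma main_ineq {μ : Measure Vert} {C : ℝ≥0} (h : HoldsA μ C) (g : Vert → ℝ) :
    ∫⁻ p : Vert × Vert, ENNReal.ofReal ((∑ α ∈ geo p.1 p.2, g α) ^ 2) ∂(μ.prod μ) ≤
      24 * C * ∑' α, ENNReal.ofReal (g α ^ 2) := by
  have := sfin μ
  obtain ⟨c, hc⟩ := exists_centroid h
  have h1 := hardy h hc (fun α => |g α|)
  simp only [sq_abs] at h1
  have e1 : ∫⁻ p : Vert × Vert, ENNReal.ofReal (I (fun α => |g α|) c p.1 ^ 2) ∂(μ.prod μ) =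
      (∫⁻ x, ENNReal.ofReal (I (fun α => |g α|) c x ^ 2) ∂μ) * μ Set.univ := by
    have := lintegral_prod_mul (μ := μ) (ν := μ)
      (f := fun x => ENNReal.ofReal (I (fun α => |g α|) c x ^ 2)) (g := fun _ => 1)
      (Measurable.of_discrete).aemeasurable (Measurable.of_discrete).aemeasurable
    simpa using this
  have e2 : ∫⁻ p : Vert × Vert, ENNReal.ofReal (I (fun α => |g α|) c p.2 ^ 2) ∂(μ.prod μ) =
      (∫⁻ x, ENNReal.ofReal (I (fun α => |g α|) c x ^ 2) ∂μ) * μ Set.univ := by
    have := lintegral_prod_mul (μ := μ) (ν := μ)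
      (f := fun _ => 1) (g := fun x => ENNReal.ofReal (I (fun α => |g α|) c x ^ 2))
      (Measurable.of_discrete).aemeasurable (Measurable.of_discrete).aemeasurable
    rw [mul_comm]
    simpa using this
  calc ∫⁻ p : Vert × Vert, ENNReal.ofReal ((∑ α ∈ geo p.1 p.2, g α) ^ 2) ∂(μ.prod μ)
      ≤ ∫⁻ p : Vert × Vert, (2 * ENNReal.ofReal (I (fun α => |g α|) c p.1 ^ 2) +
        2 * ENNReal.ofReal (I (fun α => |g α|) c p.2 ^ 2)) ∂(μ.prod μ) := by
        apply lintegral_mono
        intro p
        simp only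
        rw [show (2 : ℝ≥0∞) = ENNReal.ofReal 2 by simp, ← ENNReal.ofReal_mul zero_le_two,
          ← ENNReal.ofReal_mul zero_le_two, ← ENNReal.ofReal_add (by positivity) (by positivity)]
        apply ENNReal.ofReal_le_ofReal
        have k1 : |∑ α ∈ geo p.1 p.2, g α| ≤
            I (fun α => |g α|) c p.1 + I (fun α => |g α|) c p.2 :=
          (Finset.abs_sum_le_sum_abs _ _).trans (geo_bound (fun α => abs_nonneg _) c p.1 p.2)
        have k2 := I_nonneg (g := fun α => |g α|) (fun α => abs_nonneg _) c p.1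
        have k3 := I_nonneg (g := fun α => |g α|) (fun α => abs_nonneg _) c p.2
        rw [← sq_abs]
        nlinarith [sq_nonneg (I (fun α => |g α|) c p.1 - I (fun α => |g α|) c p.2),
          abs_nonneg (∑ α ∈ geo p.1 p.2, g α)]
    _ = 2 * ((∫⁻ x, ENNReal.ofReal (I (fun α => |g α|) c x ^ 2) ∂μ) * μ Set.univ) +
        2 * ((∫⁻ x, ENNReal.ofReal (I (fun α => |g α|) c x ^ 2) ∂μ) * μ Set.univ) := by
        rw [lintegral_add_left (Measurable.of_discrete),
          lintegral_const_mul _ (Measurable.of_discrete),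
          lintegral_const_mul _ (Measurable.of_discrete), e1, e2]
    _ ≤ 2 * (6 * (C * ∑' α, ENNReal.ofReal (g α ^ 2))) +
        2 * (6 * (C * ∑' α, ENNReal.ofReal (g α ^ 2))) := by gcongr
    _ = _ := by ring

/-! ### Reproducing kernel Hilbert spaces with kernel `|k|` -/

lemma geo_parent (x : Vert) (b : Bool) : geo x (x ++ [b]) = {x ++ [b]} := by
  ext α
  have hx := not_mem_rp x b
  simp only [geo, rp_append, Finset.mem_insert, Finset.mem_symmDiff, Finset.mem_singleton]
  by_cases hα : α = x ++ [b]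
  · subst hα; simp [hx]
  · simp [hα]

lemma geo_dropLast {α : Vert} (h : α ≠ []) : geo α.dropLast α = {α} := by
  rcases List.eq_nil_or_concat α with rfl | ⟨x, b, rfl⟩
  · exact absurd rfl h
  · rw [List.concat_eq_append]
    rw [List.dropLast_concat]
    exact geo_parent x b

lemma nil_notMem_geo (x y : Vert) : [] ∉ geo x y := by
  simp [mem_geo]

section RK

variable {H : Type} [NormedAddCommGroup H] [InnerProductSpace ℝ H] [CompleteSpace H]
    [RKHS ℝ H (Vert × Vert) ℝ]

open scoped InnerProductSpace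

variable (H) in
/-- kernel function at `p` -/
noncomputable def kf (p : Vert × Vert) : H := RKHS.kerFun H p (1 : ℝ)

lemma kf_inner (p : Vert × Vert) (G : H) : ⟪kf H p, G⟫_ℝ = G p := by
  rw [kf, RKHS.kerFun_inner]
  simp

variable (hk : ∀ p q : Vert × Vert, RKHS.kernel H p q 1 = |kern p q|)

include hk

lemma kf_kf (p q : Vert × Vert) : ⟪kf H p, kf H q⟫_ℝ = ((geo p.1 p.2 ∩ geo q.1 q.2).card : ℝ) := by
  have := RKHS.kernel_inner H p q (1:ℝ) (1:ℝ)
  rw [kf, kf, real_inner_comm, ← this, hk, abs_kern]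
  simp

lemma kf_sum (p : Vert × Vert) :
    kf H p = ∑ α ∈ geo p.1 p.2, kf H (α.dropLast, α) := by
  have key : ∀ s : Finset Vert, [] ∉ s → ∀ p : Vert × Vert,
      ⟪kf H p, ∑ α ∈ s, kf H (α.dropLast, α)⟫_ℝ = ((geo p.1 p.2 ∩ s).card : ℝ) := by
    intro s hs p
    rw [inner_sum]
    have : ∀ α ∈ s, ⟪kf H p, kf H (α.dropLast, α)⟫_ℝ = if α ∈ geo p.1 p.2 then 1 else 0 := by
      intro α hα
      have hne : α ≠ [] := fun h => hs (h ▸ hα)
      rw [kf_kf hk]
      simp only [geo_dropLast hne]
      by_cases h : α ∈ geo p.1 p.2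
      · rw [Finset.inter_singleton_of_mem h]; simp [h]
      · rw [Finset.inter_singleton_of_notMem h]; simp [h]
    rw [Finset.sum_congr rfl this, ← Finset.sum_filter, Finset.filter_mem_eq_inter,
      Finset.inter_comm]
    simp
  have hn : [] ∉ geo p.1 p.2 := nil_notMem_geo _ _
  rw [← sub_eq_zero, ← norm_eq_zero, ← sq_eq_zero_iff, norm_sub_sq_real, ← real_inner_self_eq_norm_sq,
    ← real_inner_self_eq_norm_sq, key _ hn, sum_inner, kf_kf hk]
  have : ∀ α ∈ geo p.1 p.2, ⟪kf H (α.dropLast, α), ∑ β ∈ geo p.1 p.2, kf H (β.dropLast, β)⟫_ℝ =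
      1 := by
    intro α hα
    have hne : α ≠ [] := fun h => hn (h ▸ hα)
    rw [key _ hn]
    simp only [geo_dropLast hne]
    rw [Finset.singleton_inter_of_mem hα]
    simp
  rw [Finset.sum_congr rfl this]
  simp
  ring

lemma bessel (G : H) (s : Finset Vert) (hs : [] ∉ s) :
    ∑ α ∈ s, (G (α.dropLast, α)) ^ 2 ≤ ‖G‖ ^ 2 := by
  have h0 : 0 ≤ ‖G - ∑ α ∈ s, (G (α.dropLast, α)) • kf H (α.dropLast, α)‖ ^ 2 := sq_nonneg _
  have e1 : ⟪G, ∑ α ∈ s, (G (α.dropLast, α)) • kf H (α.dropLast, α)⟫_ℝ =
      ∑ α ∈ s, (G (α.dropLast, α)) ^ 2 := by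
    rw [inner_sum]
    apply Finset.sum_congr rfl
    intro α _
    rw [inner_smul_right, real_inner_comm, kf_inner, sq]
  have e2 : ‖∑ α ∈ s, (G (α.dropLast, α)) • kf H (α.dropLast, α)‖ ^ 2 =
      ∑ α ∈ s, (G (α.dropLast, α)) ^ 2 := by
    rw [← real_inner_self_eq_norm_sq, sum_inner]
    apply Finset.sum_congr rfl
    intro α hα
    rw [inner_smul_left, inner_sum]
    have hne : α ≠ [] := fun h => hs (h ▸ hα)
    rw [Finset.sum_eq_single α]
    · rw [inner_smul_right, kf_kf hk]
      simp [geo_dropLast hne, sq]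
    · intro β hβ hne'
      have hne2 : β ≠ [] := fun h => hs (h ▸ hβ)
      rw [inner_smul_right, kf_kf hk]
      simp only [geo_dropLast hne, geo_dropLast hne2]
      rw [Finset.singleton_inter_of_notMem (by simpa using hne'.symm)]
      simp
    · intro h; exact absurd hα h
  rw [norm_sub_sq_real, e1, e2] at h0
  linarith

end RK

theorem A_to_B {μ : Measure Vert} {C : ℝ≥0} (h : HoldsA μ C) : HoldsB μ (24 * C) := by
  intro H _ _ _ _ hk G
  have h1 := main_ineq h (fun α => if α = [] then 0 else G (α.dropLast, α))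
  have h2 : ∀ p : Vert × Vert, G p = ∑ α ∈ geo p.1 p.2,
      (if α = [] then 0 else G (α.dropLast, α)) := by
    intro p
    rw [← kf_inner, kf_sum hk p, sum_inner]
    apply Finset.sum_congr rfl
    intro α hα
    have hne : α ≠ [] := fun h => nil_notMem_geo _ _ (h ▸ hα)
    rw [kf_inner, if_neg hne]
  simp only [← h2] at h1
  refine h1.trans ?_
  push_cast
  gcongr
  rw [ENNReal.tsum_eq_iSup_sum]
  apply iSup_le
  intro s
  rw [← ENNReal.ofReal_sum_of_nonneg (fun _ _ => sq_nonneg _)]
  apply ENNReal.ofReal_le_ofReal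
  classical
  refine le_trans (le_of_eq ?_) (bessel hk G (s.filter (· ≠ [])) (by simp))
  rw [Finset.sum_filter]
  apply Finset.sum_congr rfl
  intro α _
  by_cases hα : α = [] <;> simp [hα]

/-! ### The Hilbert space with kernel `|k|` -/

/-- edges between vertices of `T` -/
abbrev N := {α : Vert // α ≠ []}

/-- square summable functions on the edges between vertices of `T` -/
abbrev H0 := lp (fun _ : N => ℝ) 2

open scoped InnerProductSpace

/-- indicator of a geodesic -/
noncomputable def vv (p : Vert × Vert) : H0 :=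
  ∑ α ∈ (geo p.1 p.2).subtype (· ≠ []), lp.single 2 α (1 : ℝ)

lemma vv_inner (p : Vert × Vert) (f : H0) :
    ⟪vv p, f⟫_ℝ = ∑ α ∈ (geo p.1 p.2).subtype (· ≠ []), f α := by
  rw [vv, sum_inner]
  apply Finset.sum_congr rfl
  intro α _
  rw [lp.inner_single_left]
  simp

lemma vv_inner_parent (α : N) (f : H0) : ⟪vv (α.1.dropLast, α.1), f⟫_ℝ = f α := by
  rw [vv_inner]
  have : (geo α.1.dropLast α.1).subtype (· ≠ []) = {α} := by
    rw [geo_dropLast α.2]
    ext β
    simp [Finset.mem_subtype, Subtype.ext_iff]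
  simp only [this]
  simp

noncomputable instance instRKHSH0 : RKHS ℝ H0 (Vert × Vert) ℝ where
  coeCLM := ContinuousLinearMap.pi fun p => innerSL ℝ (vv p)
  coeCLM_injective := by
    intro f f' h
    ext α
    have h1 := congrFun h (α.1.dropLast, α.1)
    simp only [ContinuousLinearMap.pi_apply, innerSL_apply_apply] at h1
    rw [vv_inner_parent, vv_inner_parent] at h1
    exact h1

lemma H0_coe (f : H0) (p : Vert × Vert) :
    (RKHS.instFunLike (𝕜 := ℝ) (X := Vert × Vert) (V := ℝ)).coe f p = ⟪vv p, f⟫_ℝ := rfl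

lemma vv_vv (p q : Vert × Vert) : ⟪vv q, vv p⟫_ℝ = ((geo p.1 p.2 ∩ geo q.1 q.2).card : ℝ) := by
  have key : ∀ α : N, (vv p : ∀ _ : N, ℝ) α = if α.1 ∈ geo p.1 p.2 then 1 else 0 := by
    intro α
    rw [← vv_inner_parent, real_inner_comm, vv_inner]
    have h1 : ∀ β : N, (vv (α.1.dropLast, α.1) : ∀ _ : N, ℝ) β = if β = α then 1 else 0 := by
      intro β
      rw [vv]
      have : (geo (α.1.dropLast, α.1).1 (α.1.dropLast, α.1).2).subtype (· ≠ []) = {α} := by
        simp only
        rw [geo_dropLast α.2]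
        ext β
        simp [Finset.mem_subtype, Subtype.ext_iff]
      rw [this, Finset.sum_singleton]
      by_cases h : β = α
      · subst h; simp
      · rw [lp.single_apply_ne _ _ _ h, if_neg h]
    rw [Finset.sum_congr rfl (fun β _ => h1 β), Finset.sum_ite_eq']
    simp
  rw [vv_inner, Finset.sum_congr rfl (fun β _ => key β), ← Finset.sum_filter]
  simp only [Finset.sum_const, nsmul_eq_mul, mul_one]
  congr 1
  refine Finset.card_bij (fun a _ => a.1) ?_ ?_ ?_
  · intro a ha
    simp only [Finset.mem_filter, Finset.mem_subtype, Finset.mem_inter] at ha ⊢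
    exact ⟨ha.2, ha.1⟩
  · intro a _ b _ h
    exact Subtype.ext h
  · intro b hb
    have hne : b ≠ [] := fun h => nil_notMem_geo p.1 p.2 (h ▸ (Finset.mem_inter.1 hb).1)
    refine ⟨⟨b, hne⟩, ?_, rfl⟩
    simp only [Finset.mem_filter, Finset.mem_subtype, Finset.mem_inter] at hb ⊢
    exact ⟨hb.2, hb.1⟩

lemma kerFun_H0 (p : Vert × Vert) : RKHS.kerFun H0 p (1 : ℝ) = vv p := by
  apply ext_inner_right ℝ
  intro f
  rw [RKHS.kerFun_inner, H0_coe]
  simp

lemma kernel_H0 (p q : Vert × Vert) : RKHS.kernel H0 p q 1 = |kern p q| := by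
  have h := RKHS.kernel_inner H0 p q (1:ℝ) (1:ℝ)
  rw [kerFun_H0, kerFun_H0, vv_vv, ← abs_kern] at h
  simpa using h

lemma F_sum (F : Option Vert → ℝ) (x : Vert) : F (some x) = F none + ∑ α ∈ rp x, grad F α := by
  induction x using List.reverseRecOn with
  | nil =>
    have : rp [] = {[]} := by
      ext α; simp [mem_rp]
    rw [this]
    simp [grad, parent]
  | append_singleton x b ih =>
    rw [rp_append, Finset.sum_insert (not_mem_rp x b), grad, parent_append, ih]
    ring

lemma F_diff (F : Option Vert → ℝ) (x y : Vert) :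
    |F (some x) - F (some y)| ≤ ∑ α ∈ geo x y, |grad F α| := by
  classical
  have h1 : ∑ α ∈ geo x y, |grad F α| =
      ∑ α ∈ rp x \ rp y, |grad F α| + ∑ α ∈ rp y \ rp x, |grad F α| := by
    have : geo x y = (rp x \ rp y) ∪ (rp y \ rp x) := by
      ext α; simp [geo, Finset.mem_symmDiff]
    rw [this, Finset.sum_union]
    rw [Finset.disjoint_left]
    intro a ha hb
    simp at ha hb
    exact hb.2 ha.1
  have h2 : F (some x) - F (some y) =
      ∑ α ∈ rp x \ rp y, grad F α - ∑ α ∈ rp y \ rp x, grad F α := by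
    rw [F_sum F x, F_sum F y]
    have e1 := Finset.sum_inter_add_sum_sdiff (rp x) (rp y) (grad F)
    have e2 := Finset.sum_inter_add_sum_sdiff (rp y) (rp x) (grad F)
    rw [Finset.inter_comm] at e2
    linarith
  rw [h1, h2]
  refine (abs_sub _ _).trans ?_
  gcongr
  · exact Finset.abs_sum_le_sum_abs _ _
  · exact Finset.abs_sum_le_sum_abs _ _

theorem B_to_A {μ : Measure Vert} {C : ℝ≥0} (h : HoldsB μ C) : HoldsA μ (C + 1) := by
  intro F
  by_cases hT : ∑' α : Vert, ENNReal.ofReal (grad F α ^ 2) = ⊤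
  · rw [hT, ENNReal.mul_top]
    · exact le_top
    · simp
  -- square summable
  have hsum : Summable (fun α : N => |grad F α.1| ^ 2) := by
    have h1 : ∑' α : N, ENNReal.ofReal (grad F α.1 ^ 2) ≠ ⊤ :=
      ne_top_of_le_ne_top hT (ENNReal.tsum_comp_le_tsum_of_injective Subtype.val_injective _)
    have h2 := ENNReal.summable_toReal h1
    refine h2.congr fun α => ?_
    rw [ENNReal.toReal_ofReal (sq_nonneg _), sq_abs]
  have hmem : Memℓp (fun α : N => |grad F α.1|) 2 := by
    apply memℓp_gen
    simpa using hsum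
  let G : H0 := ⟨fun α : N => |grad F α.1|, hmem⟩
  have hG := h H0 kernel_H0 G
  have hnorm : ENNReal.ofReal (‖G‖ ^ 2) ≤ ∑' α : Vert, ENNReal.ofReal (grad F α ^ 2) := by
    have h1 := lp.norm_rpow_eq_tsum (p := 2) (by simp) G
    have h2 : ‖G‖ ^ 2 = ∑' α : N, |grad F α.1| ^ 2 := by
      have h3 : ‖G‖ ^ 2 = ∑' α : N, ((G : ∀ _ : N, ℝ) α) ^ 2 := by
        simpa using h1
      exact h3
    rw [h2, ENNReal.ofReal_tsum_of_nonneg (fun _ => sq_nonneg _) hsum]
    simp only [sq_abs]
    exact ENNReal.tsum_comp_le_tsum_of_injective Subtype.val_injective _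
  have hle : ∫⁻ p : Vert × Vert, ENNReal.ofReal ((F (some p.1) - F (some p.2)) ^ 2) ∂(μ.prod μ)
      ≤ C * ENNReal.ofReal (‖G‖ ^ 2) := by
    refine le_trans (lintegral_mono fun p => ?_) hG
    apply ENNReal.ofReal_le_ofReal
    have e1 : (RKHS.instFunLike (𝕜 := ℝ) (X := Vert × Vert) (V := ℝ)).coe G p =
        ∑ α ∈ geo p.1 p.2, |grad F α| := by
      rw [H0_coe, vv_inner]
      exact Finset.sum_subtype_of_mem (fun α => |grad F α|)
        (fun α hα hne => nil_notMem_geo _ _ (hne ▸ hα))
    have e2 := F_diff F p.1 p.2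
    have e3 : (F (some p.1) - F (some p.2)) ^ 2 ≤ (∑ α ∈ geo p.1 p.2, |grad F α|) ^ 2 := by
      rw [← sq_abs]
      exact pow_le_pow_left₀ (abs_nonneg _) e2 2
    rw [← e1] at e3
    exact e3
  refine hle.trans ?_
  refine mul_le_mul' ?_ hnorm
  push_cast
  exact le_self_add

/-- For every positive measure `μ` on the vertices of the rooted dyadic tree, condition (a')
(the invariant Hardy inequality for differences) holds if and only if condition (b) (boundedness of
the inclusion of the reproducing kernel Hilbert space of `|k|` in `L²(μ ⊗ μ)`) holds. -/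
theorem result (μ : Measure Vert) : (∃ C : ℝ≥0, HoldsA μ C) ↔ (∃ C : ℝ≥0, HoldsB μ C) :=
  ⟨fun ⟨C, h⟩ => ⟨24 * C, A_to_B h⟩, fun ⟨C, h⟩ => ⟨C + 1, B_to_A h⟩⟩

end Pool.Agent.Results.MP_efe325_an.HardyKernel
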